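import Pool.Agent.P8H62.NP.Main

/-!
# 2-near perfect numbers `2^k p^m` with `m ≥ 2`

The complete list: `18`, `36`, `200`, and the numbers `2^k p^3` with `p = 2^(k+1) - 1` prime. So
there are only finitely many of them if and only if there are only finitely many Mersenne primes.
-/

set_option autoImplicit false

namespace Pool.Agent.Results.MP_d695ac_nt.MersenneClassification

open Pool.Agent.P8H62.NP

theorem result :
    {n : ℕ | TwoNearPerfect n ∧ ∃ p k m : ℕ, p.Prime ∧ 2 ≤ m ∧ n = 2 ^ k * p ^ m} =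
      {18, 36, 200} ∪ {n : ℕ | ∃ p k : ℕ, p.Prime ∧ p + 1 = 2 ^ (k + 1) ∧ n = 2 ^ k * p ^ 3} ∧
    ({n : ℕ | TwoNearPerfect n ∧ ∃ p k m : ℕ, p.Prime ∧ 2 ≤ m ∧ n = 2 ^ k * p ^ m}.Finite ↔
      {p : ℕ | p.Prime ∧ ∃ j : ℕ, p + 1 = 2 ^ j}.Finite) :=
  ⟨classification, finite_iff⟩

end Pool.Agent.Results.MP_d695ac_nt.MersenneClassification
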